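import Pool.Agent.H577.Kim.Stm

/-!
# DISC (helper577, Kim): the values of a finite extension of the `l`-adic numbers are discrete
-/

set_option autoImplicit false

open scoped NNReal

namespace Pool.Agent.H161.Kim577

section

variable {l : ℕ} [Fact l.Prime]

/-- the norm of an element of a finite extension -/
lemma norm_pw (L : IntermediateField ℚ_[l] (PadicAlgCl l)) [FiniteDimensional ℚ_[l] L] (M : L)
    (hM : (M : PadicAlgCl l) ≠ 0) :
    ∃ m : ℤ, ‖(M : PadicAlgCl l)‖ ^ (Fintype.card (L →ₐ[ℚ_[l]] PadicAlgCl l)) = (l : ℝ) ^ m := by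
  classical
  have h1 := Algebra.norm_eq_prod_embeddings ℚ_[l] (PadicAlgCl l) M
  have h2 : ∀ σ : L →ₐ[ℚ_[l]] PadicAlgCl l, ‖σ M‖ = ‖(M : PadicAlgCl l)‖ := by
    intro σ
    rw [← PadicAlgCl.spectralNorm_eq, ← PadicAlgCl.spectralNorm_eq]
    unfold spectralNorm
    have h3 : minpoly ℚ_[l] (σ M) = minpoly ℚ_[l] M := minpoly.algHom_eq σ σ.injective M
    have h4 : minpoly ℚ_[l] (L.val M) = minpoly ℚ_[l] M :=
      minpoly.algHom_eq L.val L.val.injective M
    rw [h3]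
    exact congrArg spectralValue h4.symm
  have h3 : ‖(Algebra.norm ℚ_[l] M : ℚ_[l])‖ =
      ‖(M : PadicAlgCl l)‖ ^ (Fintype.card (L →ₐ[ℚ_[l]] PadicAlgCl l)) := by
    rw [← PadicAlgCl.norm_extends, h1, norm_prod, Finset.prod_congr rfl
      (fun σ _ => h2 σ), Finset.prod_const, Finset.card_univ]
  have h4 : (Algebra.norm ℚ_[l] M : ℚ_[l]) ≠ 0 := by
    rw [Algebra.norm_ne_zero_iff]
    intro h
    apply hM
    rw [h]
    rfl
  exact ⟨-(Algebra.norm ℚ_[l] M : ℚ_[l]).valuation, by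
    rw [← h3, Padic.norm_eq_zpow_neg_valuation h4]⟩

/-- elements fixed by all automorphisms over the field are in the field -/
lemma mem_of_fixed (S : Finset (PadicAlgCl l)) (M : PadicAlgCl l)
    (h : ∀ σ : PadicAlgCl l ≃ₐ[ℚ_[l]] PadicAlgCl l, (∀ s ∈ S, σ s = s) → σ M = M) :
    M ∈ IntermediateField.adjoin ℚ_[l] (S : Set (PadicAlgCl l)) := by
  have h1 := InfiniteGalois.fixedField_fixingSubgroup
    (IntermediateField.adjoin ℚ_[l] (S : Set (PadicAlgCl l)))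
  rw [← h1, IntermediateField.mem_fixedField_iff]
  intro σ hσ
  rw [IntermediateField.mem_fixingSubgroup_iff] at hσ
  exact h σ fun s hs => hσ s (IntermediateField.subset_adjoin _ _ hs)

end

theorem disc0 (l p : ℕ) [Fact l.Prime] [Fact p.Prime] (S : Finset (AlgebraicClosure ℚ_[l]))
    (W : AlgebraicClosure ℚ_[l]) (hW : W ≠ 0)
    (h : ∀ k : ℕ, ∃ M : AlgebraicClosure ℚ_[l], M ^ (p ^ k) = W ∧
      ∀ σ : AlgebraicClosure ℚ_[l] ≃ₐ[ℚ_[l]] AlgebraicClosure ℚ_[l], (∀ s ∈ S, σ s = s) →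
        σ M = M) :
    (Valued.v : Valuation (PadicAlgCl l) ℝ≥0) W = 1 := by
  classical
  obtain ⟨L, hL⟩ : ∃ L, L = IntermediateField.adjoin ℚ_[l] (S : Set (PadicAlgCl l)) := ⟨_, rfl⟩
  have hfin : FiniteDimensional ℚ_[l] L := by
    rw [hL]
    exact IntermediateField.finiteDimensional_adjoin fun x _ => Algebra.IsIntegral.isIntegral x
  obtain ⟨r, hr⟩ : ∃ r, r = Fintype.card (L →ₐ[ℚ_[l]] PadicAlgCl l) := ⟨_, rfl⟩
  have hr0 : r ≠ 0 := by
    rw [hr]
    have : Nonempty (L →ₐ[ℚ_[l]] PadicAlgCl l) := ⟨L.val⟩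
    exact Fintype.card_ne_zero
  have hl1 : (1 : ℝ) < l := by exact_mod_cast (Fact.out : l.Prime).one_lt
  have hp1 : 1 < p := (Fact.out : p.Prime).one_lt
  have key : ∀ k : ℕ, ∃ m : ℤ, ‖W‖ ^ r = (l : ℝ) ^ (m * (p : ℤ) ^ k) := by
    intro k
    obtain ⟨M, hM1, hM2⟩ := h k
    have hML : M ∈ L := by
      rw [hL]
      exact mem_of_fixed S M hM2
    have hM0 : M ≠ 0 := by
      rintro rfl
      apply hW
      rw [← hM1, zero_pow (pow_ne_zero _ (by omega))]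
    obtain ⟨m, hm⟩ := norm_pw L ⟨M, hML⟩ hM0
    refine ⟨m, ?_⟩
    rw [← hr] at hm
    rw [← hM1, norm_pow, ← pow_mul, mul_comm, pow_mul, hm]
    rw [zpow_mul]
    norm_cast
  obtain ⟨m, hm⟩ := key 0
  rw [pow_zero, mul_one] at hm
  have hm0 : m = 0 := by
    by_contra hne
    obtain ⟨m', hm'⟩ := key m.natAbs
    rw [hm] at hm'
    have h2 : m = m' * (p : ℤ) ^ m.natAbs :=
      zpow_right_injective₀ (by linarith) hl1.ne' hm'
    have h3 : (p : ℤ) ^ m.natAbs ∣ m := ⟨m', by rw [mul_comm]; exact h2⟩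
    have h4 : p ^ m.natAbs ∣ m.natAbs := by
      have := Int.natAbs_dvd_natAbs.2 h3
      rwa [Int.natAbs_pow, Int.natAbs_natCast] at this
    have h5 := Nat.le_of_dvd (Int.natAbs_pos.2 hne) h4
    have h6 := Nat.lt_pow_self hp1 (n := m.natAbs)
    omega
  rw [hm0, zpow_zero] at hm
  have h1 : ‖W‖ = 1 := (pow_eq_one_iff_of_nonneg (norm_nonneg _) hr0).1 hm
  apply NNReal.coe_injective
  rw [PadicAlgCl.valuation_coe, h1]
  rfl

theorem disc : Pool.Agent.H577.Kim.S_DISC := fun l p _ _ S W hW h => disc0 l p S W hW h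

end Pool.Agent.H161.Kim577
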